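import Pool.Agent.Q87.RS.Key

/-!
# Redei reciprocity: the computation at `2`
-/

set_option autoImplicit false

namespace Q87.RS

open Nat NumberTheorySymbols

lemma form_five : ∀ A x y z : ZMod 8, (A = 1 ∨ A = 5) → x ^ 2 - A * y ^ 2 = 5 * z ^ 2 →
    ¬ (x.val % 2 = 0 ∧ y.val % 2 = 0) → x.val % 2 = 1 ∧ (y.val % 2 = 1 ∨ y.val % 4 = 2) := by
  decide +kernel

lemma form_one : ∀ A x y z : ZMod 8, (A = 1 ∨ A = 5) → x ^ 2 - A * y ^ 2 = z ^ 2 →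
    ¬ (x.val % 2 = 0 ∧ y.val % 2 = 0) → x.val % 2 = 1 ∧ (y.val % 2 = 1 ∨ y.val % 4 = 0) := by
  decide +kernel

lemma valz (x : ℤ) : (((x : ZMod 8).val : ℕ) : ℤ) = x % 8 := ZMod.val_intCast x

lemma mod_five {A n x y z : ℤ} (hA : A % 4 = 1) (hn : n % 8 = 5)
    (e : x ^ 2 - A * y ^ 2 = n * z ^ 2) (h : ¬ (x % 2 = 0 ∧ y % 2 = 0)) :
    x % 2 = 1 ∧ (y % 2 = 1 ∨ y % 4 = 2) := by
  have hn' : ((n : ℤ) : ZMod 8) = 5 := by
    rw [show (5 : ZMod 8) = ((5 : ℤ) : ZMod 8) by norm_num]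
    exact (ZMod.intCast_eq_intCast_iff_dvd_sub n 5 8).2 (by omega)
  have hA' : ((A : ℤ) : ZMod 8) = 1 ∨ ((A : ℤ) : ZMod 8) = 5 := by
    rcases (by omega : A % 8 = 1 ∨ A % 8 = 5) with h1 | h1
    · left
      rw [show (1 : ZMod 8) = ((1 : ℤ) : ZMod 8) by norm_num]
      exact (ZMod.intCast_eq_intCast_iff_dvd_sub A 1 8).2 (by omega)
    · right
      rw [show (5 : ZMod 8) = ((5 : ℤ) : ZMod 8) by norm_num]
      exact (ZMod.intCast_eq_intCast_iff_dvd_sub A 5 8).2 (by omega)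
  have e' : ((x : ℤ) : ZMod 8) ^ 2 - (A : ZMod 8) * (y : ZMod 8) ^ 2 = 5 * (z : ZMod 8) ^ 2 := by
    rw [← hn']
    exact_mod_cast congrArg (Int.cast : ℤ → ZMod 8) e
  have hx := valz x
  have hy := valz y
  have := form_five _ _ _ _ hA' e' (by omega)
  omega

lemma mod_one {A n x y z : ℤ} (hA : A % 4 = 1) (hn : n % 8 = 1)
    (e : x ^ 2 - A * y ^ 2 = n * z ^ 2) (h : ¬ (x % 2 = 0 ∧ y % 2 = 0)) :
    x % 2 = 1 ∧ (y % 2 = 1 ∨ y % 4 = 0) := by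
  have hn' : ((n : ℤ) : ZMod 8) = 1 := by
    rw [show (1 : ZMod 8) = ((1 : ℤ) : ZMod 8) by norm_num]
    exact (ZMod.intCast_eq_intCast_iff_dvd_sub n 1 8).2 (by omega)
  have hA' : ((A : ℤ) : ZMod 8) = 1 ∨ ((A : ℤ) : ZMod 8) = 5 := by
    rcases (by omega : A % 8 = 1 ∨ A % 8 = 5) with h1 | h1
    · left
      rw [show (1 : ZMod 8) = ((1 : ℤ) : ZMod 8) by norm_num]
      exact (ZMod.intCast_eq_intCast_iff_dvd_sub A 1 8).2 (by omega)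
    · right
      rw [show (5 : ZMod 8) = ((5 : ℤ) : ZMod 8) by norm_num]
      exact (ZMod.intCast_eq_intCast_iff_dvd_sub A 5 8).2 (by omega)
  have e' : ((x : ℤ) : ZMod 8) ^ 2 - (A : ZMod 8) * (y : ZMod 8) ^ 2 = (z : ZMod 8) ^ 2 := by
    have h1 := congrArg (Int.cast : ℤ → ZMod 8) e
    push_cast at h1
    rw [hn', one_mul] at h1
    exact h1
  have hx := valz x
  have hy := valz y
  have := form_one _ _ _ _ hA' e' (by omega)
  omega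

lemma t_zero {T T' : ℤ} {t : ℕ} (h : T = 2 ^ t * T') (hT : T % 2 = 1) : t = 0 := by
  rcases t with _ | t
  · rfl
  · exfalso
    have : T = 2 * (2 ^ t * T') := by rw [h]; ring
    omega

lemma t_one {T T' : ℤ} {t : ℕ} (h : T = 2 ^ t * T') (hT' : ¬ (2 : ℤ) ∣ T') (hT : T % 4 = 2) :
    t = 1 := by
  rcases t with _ | _ | t
  · exfalso
    simp at h
    omega
  · rfl
  · exfalso
    have : T = 4 * (2 ^ t * T') := by rw [h]; ring
    omega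

/-- the case in which everything is odd -/
lemma all_odd {A n l x y z u v w : ℤ} (hA : A % 4 = 1) (hn : n % 8 = 5) (hl : l % 8 = 1)
    (e1 : x ^ 2 - A * y ^ 2 = n * z ^ 2) (e2 : u ^ 2 - A * v ^ 2 = l * w ^ 2) (hw0 : w ≠ 0)
    (hx : x % 2 = 1) (hy : y % 2 = 1) (hu : u % 2 = 1) (hv : v % 2 = 1)
    (t : ℕ) (T' : ℤ) (hT : x * v + y * u = 2 ^ t * T') (hT' : ¬ (2 : ℤ) ∣ T') : Odd t := by
  have hp : Prime (2 : ℤ) := Int.prime_two
  set X : ℤ := x * u + A * y * v with hX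
  set T : ℤ := x * v + y * u with hTd
  have I1 : X ^ 2 - A * T ^ 2 = n * l * (z * w) ^ 2 := by
    rw [hX, hTd]
    linear_combination (u ^ 2 - A * v ^ 2) * e1 + n * z ^ 2 * e2
  have I3 : v * X - u * T = -y * l * w ^ 2 := by
    rw [hX, hTd]; linear_combination (-y) * e2
  have I5 : y * X - x * T = -v * n * z ^ 2 := by
    rw [hX, hTd]; linear_combination (-v) * e1
  obtain ⟨x1, rfl⟩ : ∃ x1, x = 2 * x1 + 1 := ⟨x / 2, by omega⟩
  obtain ⟨y1, rfl⟩ : ∃ y1, y = 2 * y1 + 1 := ⟨y / 2, by omega⟩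
  obtain ⟨u1, rfl⟩ : ∃ u1, u = 2 * u1 + 1 := ⟨u / 2, by omega⟩
  obtain ⟨v1, rfl⟩ : ∃ v1, v = 2 * v1 + 1 := ⟨v / 2, by omega⟩
  obtain ⟨A1, rfl⟩ : ∃ A1, A = 2 * A1 + 1 := ⟨A / 2, by omega⟩
  obtain ⟨n1, rfl⟩ : ∃ n1, n = 2 * n1 + 1 := ⟨n / 2, by omega⟩
  obtain ⟨l1, rfl⟩ : ∃ l1, l = 2 * l1 + 1 := ⟨l / 2, by omega⟩
  have hT2 : ∃ c, T = 2 * c := ⟨2 * x1 * v1 + x1 + v1 + 2 * y1 * u1 + y1 + u1 + 1, by
    rw [hTd]; ring⟩
  have ht0 : t ≠ 0 := by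
    rintro rfl
    obtain ⟨c, hc⟩ := hT2
    exact hT' ⟨c, by rw [hT] at hc; linear_combination hc⟩
  have hnl : ¬ (2 : ℤ) ∣ (2 * n1 + 1) * (2 * l1 + 1) := by
    intro h
    rcases hp.dvd_or_dvd h with h1 | h1 <;> omega
  have hcop : ∀ s : ℕ, IsCoprime ((2 : ℤ) ^ s) ((2 * n1 + 1) * (2 * l1 + 1)) := fun s =>
      ((hp.coprime_iff_not_dvd).2 hnl).pow_left
  have hnl5 : ((2 * n1 + 1) * (2 * l1 + 1)) % 8 = 5 := by
    rw [Int.mul_emod, hn, hl]; rfl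
  by_contra hodd
  rw [Nat.not_odd_iff_even] at hodd
  obtain ⟨k, hk⟩ := hodd
  have hk0 : k ≠ 0 := by omega
  by_cases hXd : (2 : ℤ) ^ t ∣ X
  · obtain ⟨X', hX'⟩ := hXd
    have hpk : ((2 : ℤ) ^ t) ≠ 0 := pow_ne_zero _ two_ne_zero
    have h1 : ((2 : ℤ) ^ t) ^ 2 * (X' ^ 2 - (2 * A1 + 1) * T' ^ 2) =
        (2 * n1 + 1) * (2 * l1 + 1) * (z * w) ^ 2 := by
      rw [← I1, hX', hT]; ring
    obtain ⟨c, hc⟩ := sq_dvd (hcop t) ⟨_, h1.symm⟩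
    have h2 : X' ^ 2 - (2 * A1 + 1) * T' ^ 2 = (2 * n1 + 1) * (2 * l1 + 1) * c ^ 2 := by
      apply mul_left_cancel₀ (pow_ne_zero 2 hpk)
      rw [h1, hc]; ring
    have hX'o : X' % 2 = 1 := (mod_five hA hnl5 h2 (by omega)).1
    obtain ⟨X1, rfl⟩ : ∃ X1, X' = 2 * X1 + 1 := ⟨X' / 2, by omega⟩
    obtain ⟨T1, rfl⟩ : ∃ T1, T' = 2 * T1 + 1 := ⟨T' / 2, by omega⟩
    have hw : (2 : ℤ) ^ (2 * k + 2) ∣ w ^ 2 := by
      apply sq_odd_dvd hp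
      have h3 : (2 : ℤ) ^ (2 * k + 1) ∣ ((2 * y1 + 1) * (2 * l1 + 1)) * w ^ 2 := by
        refine ⟨-(2 * v1 * X1 + v1 + X1 - 2 * u1 * T1 - u1 - T1), ?_⟩
        rw [hX', hT, show t = 2 * k by omega] at I3
        linear_combination I3
      refine (((hp.coprime_iff_not_dvd).2 ?_).pow_left).dvd_of_dvd_mul_left h3
      intro h
      rcases hp.dvd_or_dvd h with h1 | h1 <;> omega
    have hz : (2 : ℤ) ^ (2 * k + 2) ∣ z ^ 2 := by
      apply sq_odd_dvd hp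
      have h3 : (2 : ℤ) ^ (2 * k + 1) ∣ ((2 * v1 + 1) * (2 * n1 + 1)) * z ^ 2 := by
        refine ⟨-(2 * y1 * X1 + y1 + X1 - 2 * x1 * T1 - x1 - T1), ?_⟩
        rw [hX', hT, show t = 2 * k by omega] at I5
        linear_combination I5
      refine (((hp.coprime_iff_not_dvd).2 ?_).pow_left).dvd_of_dvd_mul_left h3
      intro h
      rcases hp.dvd_or_dvd h with h1 | h1 <;> omega
    obtain ⟨w2, hw2⟩ := hw
    obtain ⟨z2, hz2⟩ := hz
    have J3 : (2 * v1 + 1) * (2 * X1 + 1) - (2 * u1 + 1) * (2 * T1 + 1) =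
        4 * (-(2 * y1 + 1) * (2 * l1 + 1) * w2) := by
      apply mul_left_cancel₀ hpk
      rw [hX', hT, hw2, show 2 * k + 2 = t + 2 by omega] at I3
      linear_combination I3
    have J5 : (2 * y1 + 1) * (2 * X1 + 1) - (2 * x1 + 1) * (2 * T1 + 1) =
        4 * (-(2 * v1 + 1) * (2 * n1 + 1) * z2) := by
      apply mul_left_cancel₀ hpk
      rw [hX', hT, hz2, show 2 * k + 2 = t + 2 by omega] at I5
      linear_combination I5
    have hT4 : ∃ c, T = 4 * c := by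
      obtain ⟨j, hj⟩ : ∃ j, t = j + 2 := ⟨t - 2, by omega⟩
      exact ⟨2 ^ j * (2 * T1 + 1), by rw [hT, hj]; ring⟩
    obtain ⟨c4, hc4⟩ := hT4
    have h6 : ∃ e : ℤ, 2 * ((2 * X1 + 1) * ((2 * y1 + 1) * (2 * v1 + 1))) = 4 * e :=
      ⟨c4 * (2 * T1 + 1) + (2 * v1 + 1) * (-(2 * v1 + 1) * (2 * n1 + 1) * z2) +
        (2 * y1 + 1) * (-(2 * y1 + 1) * (2 * l1 + 1) * w2), by
        linear_combination (2 * T1 + 1) * hc4 - ((2 * T1 + 1) * hTd - (2 * T1 + 1) * hTd) +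
          (2 * v1 + 1) * J5 + (2 * y1 + 1) * J3⟩
    obtain ⟨e, he⟩ := h6
    have h7 : (2 * X1 + 1) * ((2 * y1 + 1) * (2 * v1 + 1)) =
        2 * (4 * X1 * y1 * v1 + 2 * X1 * y1 + 2 * X1 * v1 + 2 * y1 * v1 + X1 + y1 + v1) + 1 := by
      ring
    omega
  · have hX0 : X ≠ 0 := by
      intro h; exact hXd (h ▸ dvd_zero _)
    obtain ⟨s, X', hsX, hX'⟩ := pdec Nat.prime_two hX0
    push_cast at hsX hX'
    have hs : s < t := by
      by_contra hge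
      exact hXd (hsX ▸ Dvd.dvd.mul_right (pow_dvd_pow _ (by omega)) _)
    obtain ⟨r, hr⟩ := Nat.exists_eq_add_of_lt hs
    have hps : ((2 : ℤ) ^ s) ≠ 0 := pow_ne_zero _ two_ne_zero
    have hTs : T = (2 : ℤ) ^ s * (2 * (2 ^ r * T')) := by
      rw [hT, hr]; ring
    have hseven : Even s := by
      obtain ⟨j, w', hw', hw''⟩ := pdec Nat.prime_two hw0
      push_cast at hw' hw''
      have h3 : (2 : ℤ) ^ s * ((2 * v1 + 1) * X' - (2 * u1 + 1) * (2 * (2 ^ r * T'))) =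
          2 ^ (2 * j) * (-(2 * y1 + 1) * (2 * l1 + 1) * w' ^ 2) := by
        rw [hTs] at I3
        have : v1 = v1 := rfl
        rw [hsX, hw'] at I3
        linear_combination I3
      have h4 := val_unique hp (by
        intro h
        obtain ⟨X1, rfl⟩ : ∃ X1, X' = 2 * X1 + 1 := ⟨X' / 2, by omega⟩
        have : (2 * v1 + 1) * (2 * X1 + 1) - (2 * u1 + 1) * (2 * (2 ^ r * T')) =
          2 * (2 * v1 * X1 + v1 + X1 - (2 * u1 + 1) * (2 ^ r * T')) + 1 := by ring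
        omega) (by
        intro h
        rcases hp.dvd_or_dvd h with h1 | h1
        · rcases hp.dvd_or_dvd h1 with h2 | h2 <;> omega
        · exact hw'' (hp.dvd_of_dvd_pow h1)) h3
      exact ⟨j, by omega⟩
    have h1 : (((2 : ℤ) ^ s) ^ 2) * (X' ^ 2 - (2 * A1 + 1) * (2 * (2 ^ r * T')) ^ 2) =
        (2 * n1 + 1) * (2 * l1 + 1) * (z * w) ^ 2 := by
      rw [← I1, hTs]
      conv_rhs => rw [hsX]
      ring
    obtain ⟨c, hc⟩ := sq_dvd (hcop s) ⟨_, h1.symm⟩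
    have h2 : X' ^ 2 - (2 * A1 + 1) * (2 * (2 ^ r * T')) ^ 2 =
        (2 * n1 + 1) * (2 * l1 + 1) * c ^ 2 := by
      apply mul_left_cancel₀ (pow_ne_zero 2 hps)
      rw [h1, hc]; ring
    have h5 := (mod_five hA hnl5 h2 (by omega)).2
    have h6 : (2 * (2 ^ r * T')) % 4 = 2 := by omega
    have h7 : r = 0 := by
      rcases r with _ | r
      · rfl
      · exfalso
        have : 2 * (2 ^ (r + 1) * T') = 4 * (2 ^ r * T') := by ring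
        omega
    obtain ⟨j, hj⟩ := hseven
    omega

/-- The parity of `v₂(T) + v₂(y)`. -/
lemma two_adic {A n l x y z u v w : ℤ} (hA : A % 4 = 1) (hn : n % 8 = 5) (hl : l % 8 = 1)
    (e1 : x ^ 2 - A * y ^ 2 = n * z ^ 2) (e2 : u ^ 2 - A * v ^ 2 = l * w ^ 2) (hw0 : w ≠ 0)
    (cxy : IsCoprime x y) (cuv : IsCoprime u v)
    (t s : ℕ) (T' y' : ℤ) (hT : x * v + y * u = 2 ^ t * T') (hT' : ¬ (2 : ℤ) ∣ T')
    (hy : y = 2 ^ s * y') (hy' : ¬ (2 : ℤ) ∣ y') :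
    Even (t + s + if Odd u ∧ Odd v then 1 else 0) := by
  have nc : ∀ {a b : ℤ}, IsCoprime a b → ¬ (a % 2 = 0 ∧ b % 2 = 0) := by
    intro a b hab h
    exact Int.prime_two.not_isUnit (hab.isUnit_of_dvd' (by omega : (2 : ℤ) ∣ a) (by omega : (2 : ℤ) ∣ b))
  obtain ⟨hx1, hy1⟩ := mod_five hA hn e1 (nc cxy)
  obtain ⟨hu1, hv1⟩ := mod_one hA hl e2 (nc cuv)
  rcases hv1 with hv1 | hv1
  · have huv : Odd u ∧ Odd v := ⟨Int.odd_iff.2 hu1, Int.odd_iff.2 hv1⟩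
    rw [if_pos huv]
    rcases hy1 with hy1 | hy1
    · have h1 := all_odd hA hn hl e1 e2 hw0 hx1 hy1 hu1 hv1 t T' hT hT'
      have h2 := t_zero hy hy1
      subst h2
      obtain ⟨j, hj⟩ := h1
      exact ⟨j + 1, by omega⟩
    · have h1 : t = 0 := by
        apply t_zero hT
        obtain ⟨x1, rfl⟩ : ∃ x1, x = 2 * x1 + 1 := ⟨x / 2, by omega⟩
        obtain ⟨y1, rfl⟩ : ∃ y1, y = 2 * y1 := ⟨y / 2, by omega⟩
        obtain ⟨v1, rfl⟩ : ∃ v1, v = 2 * v1 + 1 := ⟨v / 2, by omega⟩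
        have : (2 * x1 + 1) * (2 * v1 + 1) + 2 * y1 * u =
          2 * (2 * x1 * v1 + x1 + v1 + y1 * u) + 1 := by ring
        omega
      have h2 := t_one hy hy' hy1
      subst h1 h2
      exact ⟨1, rfl⟩
  · have huv : ¬ (Odd u ∧ Odd v) := by
      rintro ⟨-, h⟩
      rw [Int.odd_iff] at h
      omega
    rw [if_neg huv]
    rcases hy1 with hy1 | hy1
    · have h1 : t = 0 := by
        apply t_zero hT
        obtain ⟨v1, rfl⟩ : ∃ v1, v = 2 * v1 := ⟨v / 2, by omega⟩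
        obtain ⟨y1, rfl⟩ : ∃ y1, y = 2 * y1 + 1 := ⟨y / 2, by omega⟩
        obtain ⟨u1, rfl⟩ : ∃ u1, u = 2 * u1 + 1 := ⟨u / 2, by omega⟩
        have : x * (2 * v1) + (2 * y1 + 1) * (2 * u1 + 1) =
          2 * (x * v1 + 2 * y1 * u1 + y1 + u1) + 1 := by ring
        omega
      have h2 := t_zero hy hy1
      subst h1 h2
      exact ⟨0, rfl⟩
    · have h1 : t = 1 := by
        apply t_one hT hT'
        obtain ⟨v1, rfl⟩ : ∃ v1, v = 4 * v1 := ⟨v / 4, by omega⟩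
        obtain ⟨y1, rfl⟩ : ∃ y1, y = 4 * y1 + 2 := ⟨y / 4, by omega⟩
        obtain ⟨u1, rfl⟩ : ∃ u1, u = 2 * u1 + 1 := ⟨u / 2, by omega⟩
        have : x * (4 * v1) + (4 * y1 + 2) * (2 * u1 + 1) =
          4 * (x * v1 + 2 * y1 * u1 + y1 + u1) + 2 := by ring
        omega
      have h2 := t_one hy hy' hy1
      subst h1 h2
      exact ⟨1, rfl⟩

end Q87.RS
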