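import Pool.Agent.H180.RS.Stmts
import Pool.Agent.Q87.RS.Two

/-!
# Redei reciprocity
-/

set_option autoImplicit false

namespace Q87.RS

open Nat NumberTheorySymbols

lemma jac_dec {N : ℕ} (hN : N % 4 = 1) {T T' : ℤ} {t : ℕ} (h : T = 2 ^ t * T')
    (hT' : ¬ (2 : ℤ) ∣ T') : J(T | N) = J(2 | N) ^ t * J(N | T'.natAbs) := by
  rw [h, jacobiSym.mul_left, jacobiSym.pow_left, ← jac_natAbs hN T',
    jacobiSym.quadratic_reciprocity_one_mod_four' (Nat.odd_iff.2 (by omega)) hN]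

theorem rec : Pool.Agent.H180.RS.PropRec := by
  intro A N ℓ hℓ x y z u v w hA4 hA hN hN4 hℓ8 hℓA hℓN hJ e1 cxy hz hℓz e2 cuv hw cTN r hr
  have hℓp : ℓ.Prime := hℓ.out
  have hpi : Prime (ℓ : ℤ) := Nat.prime_iff_prime_int.1 hℓp
  have hℓ4 : ℓ % 4 = 1 := by omega
  have hNo : Odd N := Nat.odd_iff.2 (by omega)
  have hN0 : N ≠ 0 := by omega
  set X : ℤ := x * u + A * y * v with hX
  set T : ℤ := x * v + y * u with hTd
  have I1 : X ^ 2 - A * T ^ 2 = N * ℓ * (z * w) ^ 2 := by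
    rw [hX, hTd]
    linear_combination (u ^ 2 - A * v ^ 2) * e1 + N * z ^ 2 * e2
  have hzw : z * w ≠ 0 := mul_ne_zero hz hw
  have hT0 : T ≠ 0 := by
    intro h0
    rw [h0, isCoprime_zero_left] at cTN
    have hN1 : N = 1 := by
      have := Int.isUnit_iff_natAbs_eq.1 cTN
      simpa using this
    rw [h0, hN1] at I1
    have hX0 : X ≠ 0 := by
      intro hX0
      rw [hX0] at I1
      have : (ℓ : ℤ) * (z * w) ^ 2 = 0 := by push_cast at I1; linear_combination -I1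
      rcases mul_eq_zero.1 this with h | h
      · exact hpi.ne_zero h
      · exact hzw (pow_eq_zero_iff two_ne_zero |>.1 h)
    obtain ⟨a, X', ha, ha'⟩ := pdec hℓp hX0
    obtain ⟨b, c, hb, hb'⟩ := pdec hℓp hzw
    have h1 : (ℓ : ℤ) ^ (2 * a) * X' ^ 2 = (ℓ : ℤ) ^ (2 * b + 1) * c ^ 2 := by
      rw [ha, hb] at I1
      push_cast at I1
      linear_combination I1
    have h2 := val_unique hpi (fun h => ha' (hpi.dvd_of_dvd_pow h))
      (fun h => hb' (hpi.dvd_of_dvd_pow h)) h1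
    omega
  -- step 1
  have hℓv : ¬ (ℓ : ℤ) ∣ v := by
    intro h
    obtain ⟨c, hc⟩ := h
    have h1 : (ℓ : ℤ) ∣ u ^ 2 := ⟨A * c * v + w ^ 2, by
      rw [hc] at e2 ⊢; linear_combination e2⟩
    exact hpi.not_isUnit (cuv.isUnit_of_dvd' (hpi.dvd_of_dvd_pow h1) ⟨c, hc⟩)
  have hz' : ((z : ℤ) : ZMod ℓ) ≠ 0 := by
    rwa [Ne, ZMod.intCast_zmod_eq_zero_iff_dvd]
  have hv' : ((v : ℤ) : ZMod ℓ) ≠ 0 := by
    rwa [Ne, ZMod.intCast_zmod_eq_zero_iff_dvd]
  have hχ : ∀ a : ℤ, quadraticChar (ZMod ℓ) (a : ZMod ℓ) = J(a | ℓ) := by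
    intro a
    rw [← jacobiSym.legendreSym.to_jacobiSym, legendreSym]
  have hNchar : quadraticChar (ZMod ℓ) ((N : ℤ) : ZMod ℓ) = 1 := by
    rw [hχ, jacobiSym.quadratic_reciprocity_one_mod_four' hNo hℓ4, hJ]
  have hprod : quadraticChar (ZMod ℓ) ((x : ZMod ℓ) + y * r) *
      quadraticChar (ZMod ℓ) ((x : ZMod ℓ) - y * r) = 1 := by
    rw [← map_mul]
    have h1 : ((x : ZMod ℓ) + y * r) * ((x : ZMod ℓ) - y * r) =
        ((N : ℤ) : ZMod ℓ) * ((z : ℤ) : ZMod ℓ) ^ 2 := by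
      have h2 := congrArg (Int.cast : ℤ → ZMod ℓ) e1
      push_cast at h2 ⊢
      linear_combination h2 - (y : ZMod ℓ) ^ 2 * hr
    rw [h1, map_mul, hNchar, one_mul, quadraticChar_sq_one' hz']
  have hpm : v * r = (u : ZMod ℓ) ∨ v * r = -(u : ZMod ℓ) := by
    apply sq_eq_sq_iff_eq_or_eq_neg.1
    have h2 := congrArg (Int.cast : ℤ → ZMod ℓ) e2
    push_cast at h2
    rw [ZMod.natCast_self, zero_mul] at h2
    linear_combination (v : ZMod ℓ) ^ 2 * hr - h2
  have hval : ∀ a b : ℤ, a * b = 1 → a = b := by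
    intro a b hab
    rcases Int.eq_one_or_neg_one_of_mul_eq_one' hab with ⟨h1, h2⟩ | ⟨h1, h2⟩ <;> rw [h1, h2]
  have hmain1 : quadraticChar (ZMod ℓ) ((x : ZMod ℓ) + y * r) * J(v | ℓ) = J(T | ℓ) := by
    rcases hpm with h | h
    · rw [← hχ, ← hχ, ← map_mul]
      congr 1
      rw [hTd]
      push_cast
      linear_combination (y : ZMod ℓ) * h
    · rw [hval _ _ hprod, ← hχ, ← hχ, ← map_mul]
      congr 1
      rw [hTd]
      push_cast
      linear_combination -(y : ZMod ℓ) * h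
  have hv0 : v ≠ 0 := by
    rintro rfl; exact hℓv (dvd_zero _)
  have hJ2 : J(2 | ℓ) = 1 := jac_two_one hℓ8
  have pne : ∀ {p : ℕ}, p.Prime → (p : ℤ) ∣ (ℓ : ℤ) → p = ℓ := by
    intro p hp h
    exact (Nat.prime_dvd_prime_iff_eq hp hℓp).1 (by exact_mod_cast h)
  have hJv : J(v | ℓ) = 1 := by
    obtain ⟨a, v', hv1, hv2⟩ := pdec Nat.prime_two hv0
    push_cast at hv1 hv2
    have hv'0 : v' ≠ 0 := by rintro rfl; exact hv2 (dvd_zero _)
    rw [jac_dec hℓ4 hv1 hv2, hJ2, one_pow, one_mul]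
    have hdv : ∀ p : ℕ, p ∣ v'.natAbs → (p : ℤ) ∣ v := by
      intro p hp
      rw [hv1]
      exact Dvd.dvd.mul_left (Int.natCast_dvd.2 hp) _
    apply jac_eq_one (Int.natAbs_ne_zero.2 hv'0)
    · intro p hp hpv hpl
      have := pne hp hpl
      subst this
      exact hℓv (hdv p hpv)
    · intro p hp k b' hb hb'
      have hpv : p ∣ v'.natAbs := by
        rw [hb, pow_succ]
        exact ⟨p ^ (2 * k) * b', by ring⟩
      have : Fact p.Prime := ⟨hp⟩
      obtain ⟨c, hc⟩ := hdv p hpv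
      refine jac_of_sq (X := u) (Y := w) ⟨A * c * v, ?_⟩ ?_
      · have h3 : A * v ^ 2 = p * (A * c * v) := by
          rw [sq]
          nth_rewrite 1 [hc]
          ring
        linear_combination e2 + h3
      · intro hu
        exact (Nat.prime_iff_prime_int.1 hp).not_isUnit
          (cuv.isUnit_of_dvd' hu (hdv p hpv))
  rw [hJv, mul_one] at hmain1
  have hℓT : ¬ (ℓ : ℤ) ∣ T := by
    intro h
    have h1 : J(T | ℓ) = 0 := by
      rw [← hχ, (ZMod.intCast_zmod_eq_zero_iff_dvd T ℓ).2 h, quadraticChar_zero]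
    rw [h1] at hmain1
    rw [hmain1, zero_mul] at hprod
    exact zero_ne_one hprod
  -- step 3
  obtain ⟨t, T', hT1, hT2⟩ := pdec Nat.prime_two hT0
  push_cast at hT1 hT2
  have hT'0 : T' ≠ 0 := by rintro rfl; exact hT2 (dvd_zero _)
  have hdT : ∀ p : ℕ, p ∣ T'.natAbs → (p : ℤ) ∣ T := by
    intro p hp
    rw [hT1]
    exact Dvd.dvd.mul_left (Int.natCast_dvd.2 hp) _
  have hNT : ∀ p : ℕ, p.Prime → (p : ℤ) ∣ T → ¬ (p : ℤ) ∣ (N : ℤ) := by
    intro p hp h1 h2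
    exact (Nat.prime_iff_prime_int.1 hp).not_isUnit (cTN.isUnit_of_dvd' h1 h2)
  have hlT : ∀ p : ℕ, p.Prime → (p : ℤ) ∣ T → ¬ (p : ℤ) ∣ (ℓ : ℤ) := by
    intro p hp h1 h2
    have := pne hp h2
    subst this
    exact hℓT h1
  have hkey : J((N : ℤ) * ℓ | T'.natAbs) = 1 := by
    apply jac_eq_one (Int.natAbs_ne_zero.2 hT'0)
    · intro p hp hpT hpd
      rcases (Nat.prime_iff_prime_int.1 hp).dvd_or_dvd hpd with h | h
      · exact hNT p hp (hdT p hpT) h
      · exact hlT p hp (hdT p hpT) h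
    · intro p hp k b' hb hb'
      have hpT : p ∣ T'.natAbs := by
        rw [hb, pow_succ]
        exact ⟨p ^ (2 * k) * b', by ring⟩
      have hp2 : p ≠ 2 := by
        rintro rfl
        exact hT2 (Int.natCast_dvd.2 hpT)
      have hppi := Nat.prime_iff_prime_int.1 hp
      have h2p : ¬ (p : ℤ) ∣ (2 : ℤ) ^ t := by
        intro h
        have h3 := hppi.dvd_of_dvd_pow h
        exact hp2 ((Nat.prime_dvd_prime_iff_eq hp Nat.prime_two).1 (by exact_mod_cast h3))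
      have hb'' : ¬ (p : ℤ) ∣ (b' : ℤ) := by exact_mod_cast hb'
      rcases Int.natAbs_eq T' with h | h
      · refine key_odd hp hp2 hA e1 e2 cxy cuv (hNT p hp (hdT p hpT)) (hlT p hp (hdT p hpT)) k
          (2 ^ t * b') ?_ ?_
        · rw [← hTd, hT1, h, hb]; push_cast; ring
        · intro h4
          exact (hppi.dvd_or_dvd h4).elim h2p hb''
      · refine key_odd hp hp2 hA e1 e2 cxy cuv (hNT p hp (hdT p hpT)) (hlT p hp (hdT p hpT)) k
          (2 ^ t * (-b')) ?_ ?_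
        · rw [← hTd, hT1, h, hb]; push_cast; ring
        · intro h4
          exact (hppi.dvd_or_dvd h4).elim h2p (fun h5 => hb'' ((dvd_neg).1 h5))
  rw [jacobiSym.mul_left] at hkey
  have hkey' := hval _ _ hkey
  have hTl : J(T | ℓ) = J((N : ℤ) | T'.natAbs) := by
    rw [jac_dec hℓ4 hT1 hT2, hJ2, one_pow, one_mul, hkey']
  have hTN : J(T | N) = J(2 | N) ^ t * J((N : ℤ) | T'.natAbs) := jac_dec hN4 hT1 hT2
  rw [hmain1, hTl, jacobiSym.mul_left, hTN]
  rcases eq_or_ne y 0 with hy0 | hy0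
  · have hN1 : N = 1 := by
      rw [hy0, isCoprime_zero_right] at cxy
      have h1 : x ^ 2 = 1 := by
        rcases Int.isUnit_iff.1 cxy with h | h <;> rw [h] <;> norm_num
      rw [hy0, h1] at e1
      have h2 : (N : ℤ) ∣ 1 := ⟨z ^ 2, by linear_combination e1⟩
      have h3 : N ∣ 1 := by exact_mod_cast h2
      exact Nat.dvd_one.1 h3
    rw [hN1]
    simp
  obtain ⟨s, y', hy1, hy2⟩ := pdec Nat.prime_two hy0
  push_cast at hy1 hy2
  have hy'0 : y' ≠ 0 := by rintro rfl; exact hy2 (dvd_zero _)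
  have hdy : ∀ p : ℕ, p ∣ y'.natAbs → (p : ℤ) ∣ y := by
    intro p hp
    rw [hy1]
    exact Dvd.dvd.mul_left (Int.natCast_dvd.2 hp) _
  have hNy : J((N : ℤ) | y'.natAbs) = 1 := by
    apply jac_eq_one (Int.natAbs_ne_zero.2 hy'0)
    · intro p hp hpy hpN
      obtain ⟨c, hc⟩ := hdy p hpy
      obtain ⟨c', hc'⟩ := hpN
      have hppi := Nat.prime_iff_prime_int.1 hp
      have h1 : (p : ℤ) ∣ x ^ 2 := ⟨c' * z ^ 2 + A * c * y, by
        have h3 : A * y ^ 2 = p * (A * c * y) := by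
          rw [sq]
          nth_rewrite 1 [hc]
          ring
        have h4 : (N : ℤ) * z ^ 2 = p * (c' * z ^ 2) := by rw [hc']; ring
        linear_combination e1 + h3 + h4⟩
      exact hppi.not_isUnit (cxy.isUnit_of_dvd' (hppi.dvd_of_dvd_pow h1) ⟨c, hc⟩)
    · intro p hp k b' hb hb'
      have hpy : p ∣ y'.natAbs := by
        rw [hb, pow_succ]
        exact ⟨p ^ (2 * k) * b', by ring⟩
      have : Fact p.Prime := ⟨hp⟩
      obtain ⟨c, hc⟩ := hdy p hpy
      refine jac_of_sq (X := x) (Y := z) ⟨A * c * y, ?_⟩ ?_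
      · have h3 : A * y ^ 2 = p * (A * c * y) := by
          rw [sq]
          nth_rewrite 1 [hc]
          ring
        linear_combination e1 + h3
      · intro hu
        exact (Nat.prime_iff_prime_int.1 hp).not_isUnit
          (cxy.isUnit_of_dvd' hu (hdy p hpy))
  rw [jac_dec hN4 hy1 hy2, hNy, mul_one]
  have hfin : (if Odd u ∧ Odd v then J(2 | N) else 1) * (J(2 | N) ^ s * (J(2 | N) ^ t *
      J((N : ℤ) | T'.natAbs))) =
      J(2 | N) ^ (t + s + if Odd u ∧ Odd v then 1 else 0) * J((N : ℤ) | T'.natAbs) := by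
    split_ifs <;> ring
  rw [hfin]
  rcases (by omega : N % 8 = 1 ∨ N % 8 = 5) with h8 | h8
  · rw [jac_two_one h8, one_pow, one_mul]
  · have hev := two_adic hA4 (by omega : (N : ℤ) % 8 = 5) (by omega : (ℓ : ℤ) % 8 = 1) e1 e2 hw
      cxy cuv t s T' y' hT1 hT2 hy1 hy2
    obtain ⟨j, hj⟩ := hev
    rw [hj, ← two_mul, jac_two_sq (by omega) j, one_mul]

end Q87.RS
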