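import Mathlib

/-!
# Jacobi symbols: helper lemmas for Redei reciprocity
-/

set_option autoImplicit false

namespace Q87.RS

open Nat NumberTheorySymbols

/-- If `p ∣ X² - a Y²` and `p ∤ X` then `(a/p) = 1`. -/
lemma jac_of_sq {p : ℕ} [Fact p.Prime] {a X Y : ℤ} (h : (p : ℤ) ∣ X ^ 2 - a * Y ^ 2)
    (hX : ¬ (p : ℤ) ∣ X) : J(a | p) = 1 := by
  have hp : Prime (p : ℤ) := Nat.prime_iff_prime_int.1 Fact.out
  rcases jacobiSym.trichotomy a p with h0 | h0 | h0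
  · exfalso
    rw [jacobiSym.eq_zero_iff] at h0
    have hd : (p : ℤ) ∣ a := by
      by_contra hpa
      refine h0.2 ?_
      rw [Int.gcd_comm]
      exact (Nat.Prime.coprime_iff_not_dvd (Fact.out : p.Prime)).2
          (fun hh => hpa (Int.natCast_dvd.2 hh))
    exact hX (hp.dvd_of_dvd_pow (by
      have := dvd_add h (Dvd.dvd.mul_right hd (Y ^ 2))
      simpa using this))
  · exact h0
  · exact absurd (jacobiSym.prime_dvd_of_eq_neg_one h0 h).1 hX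

/-- factor out a prime -/
lemma pdec {p : ℕ} (hp : p.Prime) {T : ℤ} (hT : T ≠ 0) :
    ∃ (t : ℕ) (T' : ℤ), T = (p : ℤ) ^ t * T' ∧ ¬ (p : ℤ) ∣ T' := by
  have hfin : FiniteMultiplicity (p : ℤ) T :=
    Int.finiteMultiplicity_iff.2 ⟨by simpa using hp.one_lt.ne', hT⟩
  obtain ⟨c, hc, hc'⟩ := hfin.exists_eq_pow_mul_and_not_dvd
  exact ⟨_, c, hc, hc'⟩

lemma pdecN {p : ℕ} (hp : p.Prime) {n : ℕ} (hn : n ≠ 0) :
    ∃ (t n' : ℕ), n = p ^ t * n' ∧ ¬ p ∣ n' := by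
  obtain ⟨c, n', hc, hc'⟩ := Nat.exists_eq_pow_mul_and_not_dvd hn p hp.ne_one
  exact ⟨c, n', hc', hc⟩

/-- If `(a/p) = 1` for the primes `p` which divide `b` an odd number of times and `a`, `b` are
coprime, then `(a/b) = 1`. -/
lemma jac_eq_one {a : ℤ} {b : ℕ} (hb : b ≠ 0)
    (h1 : ∀ p : ℕ, p.Prime → p ∣ b → ¬ (p : ℤ) ∣ a)
    (h2 : ∀ p : ℕ, p.Prime → ∀ k b' : ℕ, b = p ^ (2 * k + 1) * b' → ¬ p ∣ b' → J(a | p) = 1) :
    J(a | b) = 1 := by
  obtain ⟨s, m, hms, hs⟩ := Nat.sq_mul_squarefree b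
  have hm0 : m ≠ 0 := by rintro rfl; simp at hms; exact hb hms.symm
  have hs0 : s ≠ 0 := hs.ne_zero
  have hcop : a.gcd m = 1 := by
    by_contra hne
    obtain ⟨p, hp, hpd⟩ := Nat.exists_prime_and_dvd hne
    refine h1 p hp ?_ ?_
    · have h3 : p ∣ m := by
        have := hpd.trans (Int.gcd_dvd_natAbs_right a m)
        simpa using this
      rw [← hms]
      exact Dvd.dvd.mul_right (dvd_pow h3 two_ne_zero) _
    · exact Int.natCast_dvd.2 (hpd.trans (Int.gcd_dvd_natAbs_left a m))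
  rw [← hms, jacobiSym.mul_right' _ (pow_ne_zero 2 hm0) hs0, jacobiSym.pow_right,
    jacobiSym.sq_one hcop, one_mul]
  by_contra hne
  have hcs : a.gcd s = 1 := by
    by_contra hne
    obtain ⟨p, hp, hpd⟩ := Nat.exists_prime_and_dvd hne
    refine h1 p hp ?_ ?_
    · have h3 : p ∣ s := by
        have := hpd.trans (Int.gcd_dvd_natAbs_right a s)
        simpa using this
      rw [← hms]
      exact Dvd.dvd.mul_left h3 _
    · exact Int.natCast_dvd.2 (hpd.trans (Int.gcd_dvd_natAbs_left a s))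
  have hneg : J(a | s) = -1 := (jacobiSym.eq_one_or_neg_one hcs).resolve_left hne
  obtain ⟨p, hp, hpd, hpj⟩ := jacobiSym.eq_neg_one_at_prime_divisor_of_eq_neg_one hneg
  obtain ⟨s', hs'⟩ := hpd
  obtain ⟨j, m', hm', hm''⟩ := pdecN hp hm0
  have hps' : ¬ p ∣ s' := by
    rintro ⟨c, hc⟩
    have h3 : p * p ∣ s := ⟨c, by rw [hs', hc]; ring⟩
    exact hp.one_lt.ne' (Nat.isUnit_iff.1 (hs p h3))
  have h4 := h2 p hp j (m' ^ 2 * s') (by
    rw [← hms, hs']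
    conv_lhs => rw [hm']
    ring) (by
    intro hd
    rcases (Nat.Prime.dvd_mul hp).1 hd with h5 | h5
    · exact hm'' (hp.dvd_of_dvd_pow h5)
    · exact hps' h5)
  rw [h4] at hpj
  norm_num at hpj

lemma jac_neg_one {N : ℕ} (hN : N % 4 = 1) : J(-1 | N) = 1 := by
  rw [jacobiSym.at_neg_one (Nat.odd_iff.2 (by omega)), ZMod.χ₄_nat_one_mod_four hN]

lemma jac_natAbs {N : ℕ} (hN : N % 4 = 1) (a : ℤ) : J(a.natAbs | N) = J(a | N) := by
  rcases Int.natAbs_eq a with h | h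
  · conv_rhs => rw [h]
  · conv_rhs => rw [h]
    rw [neg_eq_neg_one_mul, jacobiSym.mul_left, jac_neg_one hN, one_mul]

lemma jac_two_one {N : ℕ} (hN : N % 8 = 1) : J(2 | N) = 1 := by
  rw [jacobiSym.at_two (Nat.odd_iff.2 (by omega)), ZMod.χ₈_nat_eq_if_mod_eight]
  simp [hN, show N % 2 = 1 by omega]

lemma jac_two_sq {N : ℕ} (hN : N % 2 = 1) (k : ℕ) : J(2 | N) ^ (2 * k) = 1 := by
  rw [pow_mul, jacobiSym.sq_one, one_pow]
  have : Nat.Coprime 2 N := (Nat.coprime_two_left.2 (Nat.odd_iff.2 hN))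
  exact this

end Q87.RS
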