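import Pool.Agent.Q87.RS.Jac

/-!
# Redei reciprocity: the local computations at the odd primes dividing `T = xv + yu` and at `2`
-/

set_option autoImplicit false

namespace Q87.RS

open Nat NumberTheorySymbols

lemma sq_dvd {p : ℤ} {s : ℕ} {m c : ℤ} (hc : IsCoprime (p ^ s) m) (h : (p ^ s) ^ 2 ∣ m * c ^ 2) :
    p ^ s ∣ c := by
  have h1 : (p ^ s) ^ 2 ∣ c ^ 2 := (hc.pow_left (m := 2)).dvd_of_dvd_mul_left h
  exact (Int.pow_dvd_pow_iff two_ne_zero).1 h1

lemma val_unique {p : ℤ} (hp : Prime p) {a b : ℕ} {c d : ℤ} (hc : ¬ p ∣ c) (hd : ¬ p ∣ d)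
    (h : p ^ a * c = p ^ b * d) : a = b := by
  wlog hab : a ≤ b generalizing a b c d
  · exact (this hd hc h.symm (by omega)).symm
  rcases Nat.lt_or_ge a b with hlt | hge
  · exfalso
    obtain ⟨r, rfl⟩ := Nat.exists_eq_add_of_lt hlt
    have h1 : p ^ a * c = p ^ a * (p * (p ^ r * d)) := by rw [h]; ring
    have h2 := mul_left_cancel₀ (pow_ne_zero a hp.ne_zero) h1
    exact hc ⟨_, h2⟩
  · omega

lemma sq_odd_dvd {p : ℤ} (hp : Prime p) {k : ℕ} {w : ℤ} (h : p ^ (2 * k + 1) ∣ w ^ 2) :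
    p ^ (2 * k + 2) ∣ w ^ 2 := by
  have h1 : p ^ k ∣ w := by
    have h2 : (p ^ k) ^ 2 ∣ w ^ 2 := by
      rw [← pow_mul]
      exact (pow_dvd_pow p (by omega)).trans h
    exact (Int.pow_dvd_pow_iff two_ne_zero).1 h2
  obtain ⟨c, rfl⟩ := h1
  have h3 : p ^ (2 * k) * p ∣ p ^ (2 * k) * c ^ 2 := by
    have h4 : (p ^ k * c) ^ 2 = p ^ (2 * k) * c ^ 2 := by ring
    rw [← h4, ← pow_succ]
    exact h
  have h5 : p ∣ c ^ 2 := (mul_dvd_mul_iff_left (pow_ne_zero _ hp.ne_zero)).1 h3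
  obtain ⟨e, rfl⟩ := hp.dvd_of_dvd_pow h5
  exact ⟨e ^ 2, by ring⟩

/-- a common divisor of `x m` and `y m` divides `m` if `x`, `y` are coprime -/
lemma dvd_of_cop {x y m d : ℤ} (h : IsCoprime x y) (h1 : d ∣ x * m) (h2 : d ∣ y * m) : d ∣ m := by
  obtain ⟨a, b, hab⟩ := h
  have : m = a * (x * m) + b * (y * m) := by linear_combination (-m) * hab
  rw [this]
  exact dvd_add (Dvd.dvd.mul_left h1 a) (Dvd.dvd.mul_left h2 b)

/-- The odd primes that divide `T` an odd number of times. -/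
lemma key_odd {p : ℕ} (hp' : p.Prime) (hp2 : p ≠ 2) {A n l x y z u v w : ℤ} (hA : Squarefree A)
    (e1 : x ^ 2 - A * y ^ 2 = n * z ^ 2) (e2 : u ^ 2 - A * v ^ 2 = l * w ^ 2)
    (cxy : IsCoprime x y) (cuv : IsCoprime u v) (hn : ¬ (p : ℤ) ∣ n) (hl : ¬ (p : ℤ) ∣ l)
    (k : ℕ) (T' : ℤ) (hT : x * v + y * u = (p : ℤ) ^ (2 * k + 1) * T') (hT' : ¬ (p : ℤ) ∣ T') :
    J(n * l | p) = 1 := by
  have : Fact p.Prime := ⟨hp'⟩
  have hp : Prime (p : ℤ) := Nat.prime_iff_prime_int.1 hp'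
  set X : ℤ := x * u + A * y * v with hX
  set T : ℤ := x * v + y * u with hTd
  have I1 : X ^ 2 - A * T ^ 2 = n * l * (z * w) ^ 2 := by
    rw [hX, hTd]
    linear_combination (u ^ 2 - A * v ^ 2) * e1 + n * z ^ 2 * e2
  have I2 : u * X - A * v * T = x * l * w ^ 2 := by
    rw [hX, hTd]; linear_combination x * e2
  have I3 : v * X - u * T = -y * l * w ^ 2 := by
    rw [hX, hTd]; linear_combination (-y) * e2
  have I4 : x * X - A * y * T = u * n * z ^ 2 := by
    rw [hX, hTd]; linear_combination u * e1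
  have I5 : y * X - x * T = -v * n * z ^ 2 := by
    rw [hX, hTd]; linear_combination (-v) * e1
  have ncop : ∀ {a b : ℤ}, IsCoprime a b → (p : ℤ) ∣ a → (p : ℤ) ∣ b → False := by
    intro a b hab ha hb
    exact hp.not_isUnit (hab.isUnit_of_dvd' ha hb)
  have hnl : ¬ (p : ℤ) ∣ n * l := fun h => (hp.dvd_or_dvd h).elim hn hl
  by_cases hpA : (p : ℤ) ∣ A
  · obtain ⟨A', hA'⟩ := hpA
    have hA'p : ¬ (p : ℤ) ∣ A' := by
      rintro ⟨c, hc⟩
      exact hp.not_isUnit (hA p ⟨c, by rw [hA', hc]; ring⟩)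
    have gen : ∀ {x y n z : ℤ}, x ^ 2 - A * y ^ 2 = n * z ^ 2 → IsCoprime x y →
        ¬ (p : ℤ) ∣ z := by
      intro x y n z e c hz
      obtain ⟨z', rfl⟩ := hz
      have h1 : (p : ℤ) ∣ x ^ 2 := ⟨A' * y ^ 2 + n * p * z' ^ 2, by
        rw [hA'] at e; linear_combination e⟩
      obtain ⟨x', rfl⟩ := hp.dvd_of_dvd_pow h1
      have h2 : (p : ℤ) * (A' * y ^ 2) = p * (p * (x' ^ 2 - n * z' ^ 2)) := by
        rw [hA'] at e; linear_combination (-1 : ℤ) * e
      have h3 := mul_left_cancel₀ hp.ne_zero h2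
      rcases hp.dvd_or_dvd ⟨_, h3⟩ with h4 | h4
      · exact hA'p h4
      · exact ncop c (dvd_mul_right _ _) (hp.dvd_of_dvd_pow h4)
    have hz := gen e1 cxy
    have hw := gen e2 cuv
    refine jac_of_sq (X := X) (Y := z * w) ⟨A' * T ^ 2, ?_⟩ ?_
    · rw [hA'] at I1; linear_combination I1
    · intro hXp
      have h1 : (p : ℤ) ∣ n * l * (z * w) ^ 2 := by
        rw [← I1]
        exact dvd_sub (dvd_pow hXp two_ne_zero) ⟨A' * T ^ 2, by rw [hA']; ring⟩
      rcases hp.dvd_or_dvd h1 with h2 | h2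
      · exact hnl h2
      · rcases hp.dvd_or_dvd (hp.dvd_of_dvd_pow h2) with h3 | h3
        · exact hz h3
        · exact hw h3
  · have hcopnl : ∀ s : ℕ, IsCoprime ((p : ℤ) ^ s) (n * l) := fun s =>
      ((hp.coprime_iff_not_dvd).2 hnl).pow_left
    by_cases hXd : (p : ℤ) ^ (2 * k + 1) ∣ X
    · exfalso
      obtain ⟨X', hX'⟩ := hXd
      have hpk : ((p : ℤ) ^ (2 * k + 1)) ≠ 0 := pow_ne_zero _ hp.ne_zero
      have hw : (p : ℤ) ^ (2 * k + 2) ∣ w ^ 2 := by
        apply sq_odd_dvd hp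
        have h1 : (p : ℤ) ^ (2 * k + 1) ∣ l * w ^ 2 := by
          refine dvd_of_cop cxy ⟨u * X' - A * v * T', ?_⟩ ⟨-(v * X' - u * T'), ?_⟩
          · rw [hX', hT] at I2; linear_combination (-1 : ℤ) * I2
          · rw [hX', hT] at I3; linear_combination I3
        exact (((hp.coprime_iff_not_dvd).2 hl).pow_left).dvd_of_dvd_mul_left h1
      have hz : (p : ℤ) ^ (2 * k + 2) ∣ z ^ 2 := by
        apply sq_odd_dvd hp
        have h1 : (p : ℤ) ^ (2 * k + 1) ∣ n * z ^ 2 := by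
          refine dvd_of_cop cuv ⟨x * X' - A * y * T', ?_⟩ ⟨-(y * X' - x * T'), ?_⟩
          · rw [hX', hT] at I4; linear_combination (-1 : ℤ) * I4
          · rw [hX', hT] at I5; linear_combination I5
        exact (((hp.coprime_iff_not_dvd).2 hn).pow_left).dvd_of_dvd_mul_left h1
      obtain ⟨w2, hw2⟩ := hw
      obtain ⟨z2, hz2⟩ := hz
      have J2 : u * X' - A * v * T' = p * (x * l * w2) := by
        apply mul_left_cancel₀ hpk
        rw [hX', hT, hw2] at I2; linear_combination I2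
      have J3 : v * X' - u * T' = p * (-y * l * w2) := by
        apply mul_left_cancel₀ hpk
        rw [hX', hT, hw2] at I3; linear_combination I3
      have J4 : x * X' - A * y * T' = p * (u * n * z2) := by
        apply mul_left_cancel₀ hpk
        rw [hX', hT, hz2] at I4; linear_combination I4
      have J5 : y * X' - x * T' = p * (-v * n * z2) := by
        apply mul_left_cancel₀ hpk
        rw [hX', hT, hz2] at I5; linear_combination I5
      have hTp : (p : ℤ) ∣ T := by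
        rw [hT, pow_succ]
        exact ⟨(p : ℤ) ^ (2 * k) * T', by ring⟩
      have h2 : (p : ℤ) ∣ 2 * X' * (y * v) := by
        obtain ⟨c, hc⟩ := hTp
        exact ⟨c * T' + v * (-v * n * z2) + y * (-y * l * w2), by
          linear_combination T' * hc - (T' * hTd - T' * hTd) + v * J5 + y * J3⟩
      have hyx : (p : ℤ) ∣ y → False := by
        intro hy
        have h3 : (p : ℤ) ∣ x * T' := by
          obtain ⟨c, hc⟩ := hy
          exact ⟨c * X' + v * n * z2, by rw [hc] at J5; linear_combination (-1 : ℤ) * J5⟩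
        rcases hp.dvd_or_dvd h3 with h4 | h4
        · exact ncop cxy h4 hy
        · exact hT' h4
      have hvu : (p : ℤ) ∣ v → False := by
        intro hy
        have h3 : (p : ℤ) ∣ u * T' := by
          obtain ⟨c, hc⟩ := hy
          exact ⟨c * X' + y * l * w2, by rw [hc] at J3; linear_combination (-1 : ℤ) * J3⟩
        rcases hp.dvd_or_dvd h3 with h4 | h4
        · exact ncop cuv h4 hy
        · exact hT' h4
      rcases hp.dvd_or_dvd h2 with h3 | h3
      · rcases hp.dvd_or_dvd h3 with h4 | h4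
        · have h5 : p ∣ 2 := by exact_mod_cast h4
          exact hp2 ((Nat.prime_dvd_prime_iff_eq hp' Nat.prime_two).1 h5)
        · apply hyx
          have h5 : (p : ℤ) ∣ A * y * T' := by
            obtain ⟨c, hc⟩ := h4
            exact ⟨x * c - u * n * z2, by rw [hc] at J4; linear_combination (-1 : ℤ) * J4⟩
          rcases hp.dvd_or_dvd h5 with h6 | h6
          · rcases hp.dvd_or_dvd h6 with h7 | h7
            · exact absurd h7 hpA
            · exact h7
          · exact absurd h6 hT'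
      · rcases hp.dvd_or_dvd h3 with h4 | h4
        · exact hyx h4
        · exact hvu h4
    · have hX0 : X ≠ 0 := by
        intro h; exact hXd (h ▸ dvd_zero _)
      obtain ⟨s, X', hsX, hX'⟩ := pdec hp' hX0
      have hs : s < 2 * k + 1 := by
        by_contra hge
        exact hXd (hsX ▸ Dvd.dvd.mul_right (pow_dvd_pow _ (by omega)) _)
      obtain ⟨r, hr⟩ := Nat.exists_eq_add_of_lt hs
      have hps : ((p : ℤ) ^ s) ≠ 0 := pow_ne_zero _ hp.ne_zero
      have hTs : T = (p : ℤ) ^ s * (p * (p ^ r * T')) := by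
        rw [hT, hr]; ring
      have h1 : (((p : ℤ) ^ s) ^ 2) * (X' ^ 2 - A * (p * (p ^ r * T')) ^ 2) =
          n * l * (z * w) ^ 2 := by
        rw [← I1, hTs]
        conv_rhs => rw [hsX]
        ring
      obtain ⟨c, hc⟩ := sq_dvd (hcopnl s) ⟨_, h1.symm⟩
      have h2 : X' ^ 2 - A * (p * (p ^ r * T')) ^ 2 = n * l * c ^ 2 := by
        apply mul_left_cancel₀ (pow_ne_zero 2 hps)
        rw [h1, hc]; ring
      exact jac_of_sq (X := X') (Y := c) ⟨A * p * (p ^ r * T') ^ 2, by linear_combination h2⟩ hX'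

end Q87.RS
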